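import Pool.Agent.helper28.SN.SpecC

/-!
Project sn, block C: row cMCF (mass conservation for mixed discriminants of Hessians).
-/

set_option autoImplicit false

open scoped Pointwise ContDiff
open MeasureTheory Set Filter Topology Pool.Agent.helper83.SC Pool.Agent.helper69.SN

namespace Pool.Agent.helper28.SN

theorem cMCF_cont {m : ℕ} {X : Type} [TopologicalSpace X]
    {M : X → Fin m → Matrix (Fin m) (Fin m) ℝ} (hM : ∀ j, Continuous fun x => M x j) :
    Continuous fun x => mD (M x) := by
  unfold mD
  refine continuous_const.mul (continuous_finsetSum _ fun σ _ => ?_)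
  refine Continuous.matrix_det ?_
  refine continuous_matrix fun i j => ?_
  simp only [Matrix.of_apply]
  exact (hM (σ i)).matrix_elem i j

/-- the telescoping family -/
noncomputable def cMCF_H {m : ℕ} (F G : Fin m → E m → ℝ) (k : ℕ) (j : Fin m) : E m → ℝ :=
  if (j : ℕ) < k then F j else G j

theorem cMCF (hMDZ : cMDZ_stmt) (hadd : hess_add_stmt) (hsmul : hess_smul_stmt)
    (hA : mD_update_add_stmt) (hS : mD_update_smul_stmt) (hc : continuous_hess_stmt)
    (hLOC : cLOC_stmt) : cMCF_stmt := by
  intro m F G Z hZ hF hG hFG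
  set T : ℕ → E m → ℝ := fun k x => mD (fun j => hess (cMCF_H F G k j) x) with hT
  have hH : ∀ k j, ContDiff ℝ ∞ (cMCF_H F G k j) := by
    intro k j
    unfold cMCF_H
    split_ifs
    · exact hF j
    · exact hG j
  have hcont : ∀ k, Continuous (T k) := fun k =>
    cMCF_cont (fun j => hc (hH k j))
  -- one step
  have hstep : ∀ k (hk : k < m), ∀ x, T (k + 1) x - T k x
      = mD (fun j => hess (Function.update (cMCF_H F G k) ⟨k, hk⟩
          (fun y => F ⟨k, hk⟩ y + (-1) * G ⟨k, hk⟩ y) j) x) := by
    intro k hk x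
    have e1 : (fun j => hess (cMCF_H F G (k + 1) j) x)
        = Function.update (fun j => hess (cMCF_H F G k j) x) ⟨k, hk⟩ (hess (F ⟨k, hk⟩) x) := by
      funext j
      by_cases hj : j = ⟨k, hk⟩
      · subst hj
        rw [Function.update_self]
        unfold cMCF_H
        simp
      · rw [Function.update_of_ne hj]
        have hj' : (j : ℕ) ≠ k := fun h => hj (Fin.ext h)
        unfold cMCF_H
        by_cases h : (j : ℕ) < k
        · have h2 : (j : ℕ) < k + 1 := by omega
          simp [h, h2]
        · have h2 : ¬ (j : ℕ) < k + 1 := by omega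
          simp [h, h2]
    have e2 : (fun j => hess (cMCF_H F G k j) x)
        = Function.update (fun j => hess (cMCF_H F G k j) x) ⟨k, hk⟩ (hess (G ⟨k, hk⟩) x) := by
      funext j
      by_cases hj : j = ⟨k, hk⟩
      · subst hj
        rw [Function.update_self]
        unfold cMCF_H
        simp
      · rw [Function.update_of_ne hj]
    have e3 : (fun j => hess (Function.update (cMCF_H F G k) ⟨k, hk⟩
          (fun y => F ⟨k, hk⟩ y + (-1) * G ⟨k, hk⟩ y) j) x)
        = Function.update (fun j => hess (cMCF_H F G k j) x) ⟨k, hk⟩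
          (hess (F ⟨k, hk⟩) x + (-1 : ℝ) • hess (G ⟨k, hk⟩) x) := by
      funext j
      by_cases hj : j = ⟨k, hk⟩
      · subst hj
        rw [Function.update_self, Function.update_self]
        have h1 : hess (fun y => F ⟨k, hk⟩ y + (-1) * G ⟨k, hk⟩ y) x
            = hess (F ⟨k, hk⟩) x + hess (fun y => (-1) * G ⟨k, hk⟩ y) x :=
          hadd (hF _) (contDiff_const.mul (hG _)) x
        rw [h1, hsmul (hG _) (-1) x]
      · rw [Function.update_of_ne hj, Function.update_of_ne hj]
    have hT1 : T (k + 1) x = mD (Function.update (fun j => hess (cMCF_H F G k j) x) ⟨k, hk⟩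
        (hess (F ⟨k, hk⟩) x)) := by
      simp only [hT]; rw [e1]
    have hT2 : T k x = mD (Function.update (fun j => hess (cMCF_H F G k j) x) ⟨k, hk⟩
        (hess (G ⟨k, hk⟩) x)) := by
      simp only [hT]; rw [← e2]
    rw [hT1, hT2, e3, hA, hS]
    ring
  have hsupp : ∀ k (hk : k < m), HasCompactSupport (fun y => F ⟨k, hk⟩ y + (-1) * G ⟨k, hk⟩ y) := by
    intro k hk
    refine HasCompactSupport.intro hZ ?_
    intro x hx
    rw [hFG _ x hx]; ring
  have hint0 : ∀ k, k < m → ∫ x, (T (k + 1) x - T k x) = 0 := by
    intro k hk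
    have e : (fun x => T (k + 1) x - T k x) = fun x => mD (fun j => hess (Function.update
        (cMCF_H F G k) ⟨k, hk⟩ (fun y => F ⟨k, hk⟩ y + (-1) * G ⟨k, hk⟩ y) j) x) := by
      funext x; exact hstep k hk x
    rw [e]
    apply hMDZ _ ⟨k, hk⟩
    · intro i
      by_cases hi : i = ⟨k, hk⟩
      · subst hi
        rw [Function.update_self]
        exact (hF _).add (contDiff_const.mul (hG _))
      · rw [Function.update_of_ne hi]
        exact hH k i
    · rw [Function.update_self]
      exact hsupp k hk
  have hintg : ∀ k, k < m → Integrable (fun x => T (k + 1) x - T k x) := by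
    intro k hk
    apply Continuous.integrable_of_hasCompactSupport ((hcont (k + 1)).sub (hcont k))
    refine HasCompactSupport.intro hZ ?_
    intro x hx
    show T (k + 1) x - T k x = 0
    rw [hstep k hk x]
    have h0 : hess (fun y => F ⟨k, hk⟩ y + (-1) * G ⟨k, hk⟩ y) x = 0 := by
      have h1 : ∀ᶠ y in 𝓝 x, (fun y => F ⟨k, hk⟩ y + (-1) * G ⟨k, hk⟩ y) y
          = (fun _ => (0 : ℝ)) y := by
        have h2 : Zᶜ ∈ 𝓝 x := hZ.isClosed.isOpen_compl.mem_nhds hx
        filter_upwards [h2] with y hy
        have := hFG ⟨k, hk⟩ y hy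
        simp only [this]; ring
      rw [hLOC _ _ x h1]
      have h3 : (fun _ : E m => (0 : ℝ)) = fun y => (0 : ℝ) * (F ⟨k, hk⟩ y) := by
        funext y; ring
      rw [h3, hsmul (hF _) 0 x, zero_smul]
    have e3 : (fun j => hess (Function.update (cMCF_H F G k) ⟨k, hk⟩
          (fun y => F ⟨k, hk⟩ y + (-1) * G ⟨k, hk⟩ y) j) x)
        = Function.update (fun j => hess (cMCF_H F G k j) x) ⟨k, hk⟩
          ((0 : ℝ) • (1 : Matrix (Fin m) (Fin m) ℝ)) := by
      funext j
      by_cases hj : j = ⟨k, hk⟩
      · subst hj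
        rw [Function.update_self, Function.update_self, h0, zero_smul]
      · rw [Function.update_of_ne hj, Function.update_of_ne hj]
    rw [e3, hS, zero_mul]
  have htel : ∀ n, n ≤ m → (∫ x, (T n x - T 0 x) = 0 ∧ Integrable (fun x => T n x - T 0 x)) := by
    intro n
    induction n with
    | zero =>
      intro _
      simp
    | succ n ih =>
      intro hn
      obtain ⟨i1, i2⟩ := ih (by omega)
      have i3 := hint0 n (by omega)
      have i4 := hintg n (by omega)
      have e : (fun x => T (n + 1) x - T 0 x)
          = fun x => (T (n + 1) x - T n x) + (T n x - T 0 x) := by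
        funext x; ring
      rw [e]
      refine ⟨?_, i4.add i2⟩
      rw [integral_add i4 i2, i1, i3, add_zero]
  have hfin := (htel m le_rfl).1
  have eF : ∀ x, T m x = mD (fun j => hess (F j) x) := by
    intro x
    simp only [hT]
    congr 1
    funext j
    unfold cMCF_H
    simp
  have eG : ∀ x, T 0 x = mD (fun j => hess (G j) x) := by
    intro x
    simp only [hT]
    congr 1
  simp only [eF, eG] at hfin
  exact hfin

end Pool.Agent.helper28.SN
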