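import Pool.Agent.helper28.SN.SpecC

/-!
Project sn, block C: row cRAD (a steep radial convex function).
-/

set_option autoImplicit false

open scoped Pointwise ContDiff
open MeasureTheory Set Filter Topology Pool.Agent.helper83.SC Pool.Agent.helper69.SN

namespace Pool.Agent.helper28.SN

theorem cRAD (hREG : cREG_stmt) (hpsd : hess_psd_stmt) (hcont : continuous_hess_stmt) :
    cRAD_stmt := by
  intro m ρ hρ
  obtain ⟨θ, hθ⟩ := hREG
  have hρ2 : 0 < ρ ^ 2 := by positivity
  set q : E m → ℝ := fun x => 4 * (‖x‖ ^ 2 - 2 * ρ ^ 2) / ρ ^ 2 with hq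
  have hqs : ContDiff ℝ ∞ q := by
    have h1 : ContDiff ℝ ∞ (fun x : E m => ‖x‖ ^ 2) := contDiff_norm_sq ℝ
    exact ((contDiff_const.mul (h1.sub contDiff_const)).div_const _)
  have hqc : ConvexOn ℝ univ q := by
    have h1 : ConvexOn ℝ univ (fun x : E m => ‖x‖ ^ 2) := by
      have h0 : ConvexOn ℝ univ (fun x : E m => ‖x‖) := convexOn_norm convex_univ
      exact h0.pow (fun x _ => norm_nonneg x) 2
    have h2 : ConvexOn ℝ univ (fun x : E m => (4 / ρ ^ 2) * ‖x‖ ^ 2 + (-8)) := by
      have h3 := h1.smul (by positivity : (0 : ℝ) ≤ 4 / ρ ^ 2)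
      exact h3.add_const (-8)
    have e : q = fun x : E m => (4 / ρ ^ 2) * ‖x‖ ^ 2 + (-8) := by
      funext x
      simp only [hq]
      field_simp
      ring
    rw [e]; exact h2
  have hθd : Differentiable ℝ θ := hθ.smooth.differentiable (by simp)
  have hθd1 : ContDiff ℝ ∞ (deriv θ) := by
    have := hθ.smooth
    exact (contDiff_infty_iff_deriv.mp this).2
  have hθc : ConvexOn ℝ univ θ := by
    apply convexOn_univ_of_deriv2_nonneg hθd (hθd1.differentiable (by simp))
    intro t
    have := hθ.d2 t
    simpa using this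
  have hθm : Monotone θ := monotone_of_deriv_nonneg hθd hθ.d0
  set g : E m → ℝ := fun x => θ (q x) with hg
  have hgs : ContDiff ℝ ∞ g := hθ.smooth.comp hqs
  have hgc : CV g := by
    have h1 : ConvexOn ℝ (q '' univ) θ :=
      (hθc.subset (subset_univ _) (by
        have : Convex ℝ (q '' univ) := by
          have h2 : (q '' univ).OrdConnected := by
            have : IsPreconnected (q '' univ) :=
              isPreconnected_univ.image q hqs.continuous.continuousOn
            exact this.ordConnected
          exact h2.convex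
        exact this))
    exact h1.comp hqc (hθm.monotoneOn _)
  -- the bound on the Hessian
  obtain ⟨M, hM0, hM⟩ : ∃ M : ℝ, 0 ≤ M ∧ ∀ x : E m, ‖x‖ ≤ 2 * ρ → ∀ i j, |hess g x i j| ≤ M := by
    have hK : IsCompact (Metric.closedBall (0 : E m) (2 * ρ)) := isCompact_closedBall _ _
    have hc : Continuous (fun x : E m => ∑ i, ∑ j, |hess g x i j|) := by
      refine continuous_finsetSum _ fun i _ => continuous_finsetSum _ fun j _ => ?_
      exact ((hcont hgs).matrix_elem i j).abs
    obtain ⟨M, hM⟩ := hK.exists_bound_of_continuousOn hc.continuousOn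
    refine ⟨|M|, abs_nonneg _, ?_⟩
    intro x hx i j
    have h1 := hM x (by rw [Metric.mem_closedBall, dist_zero_right]; exact hx)
    have h2 : |hess g x i j| ≤ ∑ i, ∑ j, |hess g x i j| := by
      have h3 : |hess g x i j| ≤ ∑ j, |hess g x i j| :=
        Finset.single_le_sum (f := fun j => |hess g x i j|) (fun j _ => abs_nonneg _)
          (Finset.mem_univ j)
      have h4 : ∑ j, |hess g x i j| ≤ ∑ i, ∑ j, |hess g x i j| :=
        Finset.single_le_sum (f := fun i => ∑ j, |hess g x i j|)
          (fun i _ => Finset.sum_nonneg fun j _ => abs_nonneg _) (Finset.mem_univ i)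
      exact h3.trans h4
    rw [Real.norm_eq_abs] at h1
    exact h2.trans ((le_abs_self _).trans (h1.trans (le_abs_self M)))
  refine ⟨g, M * m, ⟨hgs, hgc⟩, by positivity, ?_, ?_, ?_, ?_⟩
  · intro x hx
    simp only [hg]
    apply hθ.zero
    simp only [hq]
    rw [div_le_iff₀ hρ2]
    have : ‖x‖ ^ 2 ≤ ρ ^ 2 := by
      exact pow_le_pow_left₀ (norm_nonneg x) hx 2
    nlinarith
  · intro x
    exact (le_max_right _ _).trans (hθ.ge (q x))
  · intro x hx
    have h1 : 4 ≤ q x := by
      simp only [hq]
      rw [le_div_iff₀ hρ2]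
      nlinarith
    have h2 := (le_max_left (q x) 0).trans (hθ.ge (q x))
    simp only [hg]
    linarith
  · intro x hx
    have hH := hpsd hgs hgc x
    have hherm : ((M * m) • (1 : Mat m) - hess g x).IsHermitian := by
      apply Matrix.IsHermitian.sub
      · have h1 : (1 : Mat m).IsHermitian := Matrix.isHermitian_one
        rw [Matrix.IsHermitian, Matrix.conjTranspose_smul, h1]
        simp
      · exact hH.1
    refine Matrix.PosSemidef.of_dotProduct_mulVec_nonneg hherm ?_
    intro v
    have e1 : star v ⬝ᵥ ((M * m) • (1 : Mat m) - hess g x).mulVec v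
        = M * m * ∑ i, v i ^ 2 - ∑ i, ∑ j, v i * (hess g x i j * v j) := by
      rw [Matrix.sub_mulVec, dotProduct_sub, Matrix.smul_mulVec, Matrix.one_mulVec]
      congr 1
      · simp only [dotProduct, Pi.smul_apply, smul_eq_mul, star_trivial, Finset.mul_sum]
        refine Finset.sum_congr rfl fun i _ => ?_
        ring
      · simp only [dotProduct, Matrix.mulVec, Finset.mul_sum, Pi.star_apply, star_trivial]
    rw [e1, sub_nonneg]
    have e2 : ∀ i j, v i * (hess g x i j * v j) ≤ M * ((v i ^ 2 + v j ^ 2) / 2) := by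
      intro i j
      have h1 := hM x hx i j
      have h2 : v i * (hess g x i j * v j) ≤ |hess g x i j| * (|v i| * |v j|) := by
        have : v i * (hess g x i j * v j) = hess g x i j * (v i * v j) := by ring
        rw [this]
        calc hess g x i j * (v i * v j) ≤ |hess g x i j * (v i * v j)| := le_abs_self _
          _ = |hess g x i j| * (|v i| * |v j|) := by rw [abs_mul, abs_mul]
      have h3 : |v i| * |v j| ≤ (v i ^ 2 + v j ^ 2) / 2 := by
        have := sq_nonneg (|v i| - |v j|)
        have h4 := sq_abs (v i)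
        have h5 := sq_abs (v j)
        nlinarith
      have h6 : 0 ≤ |v i| * |v j| := by positivity
      calc v i * (hess g x i j * v j) ≤ |hess g x i j| * (|v i| * |v j|) := h2
        _ ≤ M * (|v i| * |v j|) := mul_le_mul_of_nonneg_right h1 h6
        _ ≤ M * ((v i ^ 2 + v j ^ 2) / 2) := mul_le_mul_of_nonneg_left h3 hM0
    have e3 : ∑ i, ∑ j, v i * (hess g x i j * v j)
        ≤ ∑ i : Fin m, ∑ j : Fin m, M * ((v i ^ 2 + v j ^ 2) / 2) :=
      Finset.sum_le_sum fun i _ => Finset.sum_le_sum fun j _ => e2 i j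
    refine e3.trans_eq ?_
    have e4 : ∀ i : Fin m, ∑ j : Fin m, M * ((v i ^ 2 + v j ^ 2) / 2)
        = M / 2 * (m * v i ^ 2 + ∑ j, v j ^ 2) := by
      intro i
      rw [← Finset.mul_sum]
      have : ∑ j : Fin m, (v i ^ 2 + v j ^ 2) / 2 = (m * v i ^ 2 + ∑ j, v j ^ 2) / 2 := by
        rw [← Finset.sum_div, Finset.sum_add_distrib]
        simp
      rw [this]; ring
    simp only [e4]
    rw [← Finset.mul_sum, Finset.sum_add_distrib, ← Finset.mul_sum]
    simp only [Finset.sum_const, Finset.card_univ, Fintype.card_fin, nsmul_eq_mul]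
    ring

end Pool.Agent.helper28.SN
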