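import Pool.Agent.helper40.SN.SpecD

/-!
Project sn, block D: row dNCV (pointwise convergence of convex functions is locally uniform).
-/

set_option autoImplicit false

open scoped Pointwise ContDiff
open MeasureTheory Set Filter Topology Pool.Agent.helper83.SC Pool.Agent.helper69.SN

namespace Pool.Agent.helper40.SN

theorem dNCV (hLip : loc_lip_stmt) : dNCV_stmt := by
  intro m n h a ha hlim η R hη
  have key : ∀ i, ∀ᶠ k in atTop, ∀ x : E m, ‖x‖ ≤ R → |a k i x - h i x| ≤ η := by
    intro i
    obtain ⟨L, hL⟩ := hLip (g := fun k => a k i) (f := h i) (fun k => (ha k i).2) (hlim i) R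
    have hLf : ∀ x y : E m, ‖x‖ ≤ R → ‖y‖ ≤ R → |h i x - h i y| ≤ L * ‖x - y‖ := by
      intro x y hx hy
      have h1 : Tendsto (fun k => |a k i x - a k i y|) atTop (𝓝 |h i x - h i y|) :=
        ((hlim i x).sub (hlim i y)).abs
      exact le_of_tendsto' h1 (fun k => hL k x y hx hy)
    set L' : ℝ := max L 1 with hL'
    have hL'p : 0 < L' := lt_of_lt_of_le one_pos (le_max_right _ _)
    have hLL' : L ≤ L' := le_max_left _ _
    set s : ℝ := η / (3 * L') with hs
    have hsp : 0 < s := by positivity
    have hK : IsCompact (Metric.closedBall (0 : E m) R) := isCompact_closedBall _ _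
    obtain ⟨t, htK, htf, hcov⟩ := hK.finite_cover_balls hsp
    have hev : ∀ᶠ k in atTop, ∀ c ∈ t, |a k i c - h i c| < η / 3 := by
      rw [htf.eventually_all]
      intro c hc
      have h1 := hlim i c
      rw [Metric.tendsto_nhds] at h1
      have h2 := h1 (η / 3) (by linarith)
      filter_upwards [h2] with k hk
      rw [Real.dist_eq] at hk
      exact hk
    filter_upwards [hev] with k hk x hx
    have hx' : x ∈ Metric.closedBall (0 : E m) R := by
      rw [Metric.mem_closedBall, dist_zero_right]; exact hx
    have h3 := hcov hx'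
    simp only [mem_iUnion, exists_prop] at h3
    obtain ⟨c, hc, hxc⟩ := h3
    have hcR : ‖c‖ ≤ R := by
      have := htK hc
      rwa [Metric.mem_closedBall, dist_zero_right] at this
    have hd : ‖x - c‖ ≤ s := by
      rw [Metric.mem_ball, dist_eq_norm] at hxc
      exact hxc.le
    have h4 : L * ‖x - c‖ ≤ η / 3 := by
      calc L * ‖x - c‖ ≤ L' * ‖x - c‖ := mul_le_mul_of_nonneg_right hLL' (norm_nonneg _)
        _ ≤ L' * s := mul_le_mul_of_nonneg_left hd hL'p.le
        _ = η / 3 := by rw [hs]; field_simp
    have h5 := (hL k x c hx hcR).trans h4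
    have h6 := (hLf x c hx hcR).trans h4
    have h7 := hk c hc
    have e : a k i x - h i x = (a k i x - a k i c) + (a k i c - h i c) - (h i x - h i c) := by
      ring
    rw [e]
    have h8 := abs_sub (a k i x - a k i c + (a k i c - h i c)) (h i x - h i c)
    have h9 := abs_add_le (a k i x - a k i c) (a k i c - h i c)
    have h5' : |a k i x - a k i c| ≤ η / 3 := h5
    linarith
  have hall : ∀ᶠ k in atTop, ∀ i, ∀ x : E m, ‖x‖ ≤ R → |a k i x - h i x| ≤ η :=
    eventually_all.mpr key
  filter_upwards [hall] with k hk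
  exact ⟨fun i => ha k i, fun i x hx => hk i x hx⟩

end Pool.Agent.helper40.SN
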